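import Pool.Agent.helper52.WP.SpecA

/-!
# Project wp: module `DJC`
-/

set_option autoImplicit false

open Complex Metric Set Filter Topology MeasureTheory
open V3S (UF)
open WP

noncomputable section

namespace WPA

/-- the displacement near the centre. -/
theorem DJC_disp (hITB : ITB_stmt) (f : Polynomial ℂ) (δ ε₁ ε : ℝ) (k : ℕ) (w : ℂ) (ρ : ℝ) (hB : Bs f δ ε₁ ε k w ρ) (y : ℂ)
    (hy : y ∈ ball w (ρ / 200)) : ‖it f k y - y‖ ≤ ε * ρ + 32 * ε * (ρ / 200) := by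
  have hdif : Differentiable ℂ (it f k) := (hITB f).2.2.2.1 k
  have hρ := hB.rho
  have hy16 : y ∈ ball w (ρ / 16) := by
    rw [mem_ball] at hy ⊢
    linarith
  have hw16 : w ∈ ball w (ρ / 16) := mem_ball_self (by linarith)
  have h1 : ‖(fun z => it f k z - z) y - (fun z => it f k z - z) w‖ ≤ 32 * ε * ‖y - w‖ := by
    refine Convex.norm_image_sub_le_of_norm_deriv_le (𝕜 := ℂ) (f := fun z => it f k z - z) (s := ball w (ρ / 16)) ?_ ?_ (convex_ball w (ρ / 16)) hw16 hy16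
    · intro z _
      exact (hdif z).sub differentiableAt_id
    · intro z hz
      have h2 : deriv (fun z => it f k z - z) z = deriv (it f k) z - 1 := by
        have h3 : HasDerivAt (fun z => it f k z - z) (deriv (it f k) z - 1) z := (hdif z).hasDerivAt.sub (hasDerivAt_id z)
        exact h3.deriv
      rw [h2]
      exact hB.de z hz
  have h4 : ‖y - w‖ ≤ ρ / 200 := by
    rw [mem_ball, dist_eq_norm] at hy
    exact hy.le
  have h5 : ‖it f k y - y‖ ≤ ‖it f k w - w‖ + ‖(it f k y - y) - (it f k w - w)‖ := by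
    have h6 : it f k y - y = (it f k w - w) + ((it f k y - y) - (it f k w - w)) := by ring
    calc ‖it f k y - y‖ = ‖(it f k w - w) + ((it f k y - y) - (it f k w - w))‖ := by rw [← h6]
      _ ≤ _ := norm_add_le _ _
  have h7 : ‖(it f k y - y) - (it f k w - w)‖ ≤ 32 * ε * ‖y - w‖ := h1
  have h8 : 32 * ε * ‖y - w‖ ≤ 32 * ε * (ρ / 200) := by
    have := hB.e0
    exact mul_le_mul_of_nonneg_left h4 (by positivity)
  rw [hB.ctr] at h5
  linarith

/-- no return of order at most `k / 2`. -/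
theorem DJC_core (hITB : ITB_stmt) (c₁ C : ℝ) (hc₁ : 0 < c₁) (hC : 1 ≤ C) (hc2 : c₁ ≤ 1 / 200) (f : Polynomial ℂ) (δ ε₁ ε : ℝ) (k : ℕ) (w : ℂ)
    (ρ : ℝ) (m : ℕ) (y : ℂ) (hR : Rt f δ ε₁ ε k w ρ m y) (hy : y ∈ ball w (c₁ * ρ)) (hmk : 2 * m ≤ k) (hε : ε₁ ≤ 1 / (100 * C))
    (h1 : ‖it f m y - y‖ ≤ ((m : ℝ) / k + C * ε) * ‖it f k y - y‖)
    (h2 : ‖it f m y - y‖ ≤ 2 * ‖it f k y - y‖ → ‖deriv (it f m) y - 1‖ ≤ δ / 10) : False := by
  have hB := hR.bs
  have hρ := hB.rho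
  have he0 := hB.e0
  have he1 := hB.e1
  have hk0 : (0 : ℝ) < k := by
    have := hB.k1
    exact_mod_cast this
  have hCpos : 0 < C := by linarith
  have hmk2 : (m : ℝ) / k ≤ 1 / 2 := by
    rw [div_le_div_iff₀ hk0 (by norm_num)]
    have : (2 * m : ℝ) ≤ k := by exact_mod_cast hmk
    linarith
  have hCe : C * ε ≤ 1 / 100 := by
    have h3 : C * ε ≤ C * (1 / (100 * C)) := mul_le_mul_of_nonneg_left (he1.trans hε) hCpos.le
    have h4 : C * (1 / (100 * C)) = 1 / 100 := by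
      field_simp
    linarith
  have hu : ‖it f k y - y‖ ≤ ε * ρ + 32 * ε * (ρ / 200) := DJC_disp hITB f δ ε₁ ε k w ρ hB y hR.y1
  have hun : 0 ≤ ‖it f k y - y‖ := norm_nonneg _
  have hv : ‖it f m y - y‖ ≤ 51 / 100 * ‖it f k y - y‖ := by
    refine h1.trans ?_
    exact mul_le_mul_of_nonneg_right (by linarith) hun
  have hder := h2 (by linarith)
  have hsub : ball y (ρ * (1 - c₁)) ⊆ ball w ρ := by
    refine ball_subset_ball' ?_
    rw [mem_ball] at hy
    nlinarith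
  have hinj : InjOn (it f m) (ball y (ρ * (1 - c₁))) := by
    have h5 := (hITB f).2.2.2.2.2.2.2 (ball w ρ) m k hR.ml.le hB.inj
    exact h5.mono hsub
  have hs : 0 < ρ * (1 - c₁) := by
    apply mul_pos hρ
    linarith
  have h6 := hB.mn m hR.m1 hR.ml y (ρ * (1 - c₁)) hs hinj hder
  have he1' : 0 < ε₁ := lt_of_lt_of_le he0 he1
  have h7 : ε₁ * (ρ * (199 / 200)) ≤ ε₁ * (ρ * (1 - c₁)) := by
    apply mul_le_mul_of_nonneg_left _ he1'.le
    apply mul_le_mul_of_nonneg_left _ hρ.le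
    linarith
  have h8 : ε * ρ ≤ ε₁ * ρ := mul_le_mul_of_nonneg_right he1 hρ.le
  have h9 : 0 < ε₁ * ρ := mul_pos he1' hρ
  nlinarith

theorem DJC (hDSL : DSL_stmt) (hDRV : DRV_stmt) (hITB : ITB_stmt) : DJC_stmt := by
  obtain ⟨c₁, hc₁, C, hC, hc2, hD⟩ := hDSL
  refine ⟨c₁ / 2, by linarith, by linarith, ?_⟩
  intro δ hδ hδ1
  obtain ⟨ε₃, hε₃, hD3⟩ := hD δ hδ hδ1
  obtain ⟨ε₄, hε₄, hD4⟩ := hDRV δ hδ hδ1
  have hCpos : 0 < C := by linarith
  refine ⟨min (min ε₃ ε₄) (min (1 / (100 * C)) (c₁ / 8)), ?_, ?_⟩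
  · refine lt_min (lt_min hε₃ hε₄) (lt_min (by positivity) (by positivity))
  intro f ε₁ ε k w ρ hdeg hWD hB hε i j hij hjk
  have ha3 : ε₁ ≤ ε₃ := hε.trans ((min_le_left _ _).trans (min_le_left _ _))
  have ha4 : ε₁ ≤ ε₄ := hε.trans ((min_le_left _ _).trans (min_le_right _ _))
  have haC : ε₁ ≤ 1 / (100 * C) := hε.trans ((min_le_right _ _).trans (min_le_left _ _))
  have hac : ε₁ ≤ c₁ / 8 := hε.trans ((min_le_right _ _).trans (min_le_right _ _))
  have hρ := hB.rho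
  have he0 := hB.e0
  have he1 := hB.e1
  have hadd := (hITB f).2.2.1
  have key : ∀ (m : ℕ) (y : ℂ), 1 ≤ m → m < k → 2 * m ≤ k → y ∈ ball w (c₁ * ρ) → it f m y ∈ ball w (c₁ * ρ) → False := by
    intro m y hm1 hmk h2m hy1 hy2
    have hsub : ball w (c₁ * ρ) ⊆ ball w (ρ / 200) := ball_subset_ball (by nlinarith)
    have hR : Rt f δ ε₁ ε k w ρ m y := ⟨hB, hm1, hmk, hsub hy1, hsub hy2⟩
    exact DJC_core hITB c₁ C hc₁ hC hc2 f δ ε₁ ε k w ρ m y hR hy1 h2m haC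
      (hD3 f ε₁ ε k w ρ m y hdeg hWD hR ha3 hy1 hy2) (hD4 f ε₁ ε k w ρ m y hWD hR ha4)
  rw [Set.disjoint_left]
  rintro z ⟨x, hx, hxz⟩ ⟨x', hx', hxz'⟩
  have heρ : ε * ρ ≤ c₁ / 8 * ρ := mul_le_mul_of_nonneg_right (he1.trans hac) hρ.le
  have hcρ : c₁ * ρ ≤ 1 / 200 * ρ := mul_le_mul_of_nonneg_right hc2 hρ.le
  have hstep : ∀ (p : ℂ) (r : ℝ), r ≤ ρ / 16 → p ∈ ball w r → it f k p ∈ ball w (r + 2 * ε * ρ) := by
    intro p r hr hp
    have h1 := hB.hi p (ball_subset_ball hr hp)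
    rw [mem_ball, dist_eq_norm] at hp ⊢
    have h2 : it f k p - w = (it f k p - p) + (p - w) := by ring
    rw [h2]
    have h3 := norm_add_le (it f k p - p) (p - w)
    linarith
  have hcp : 0 < c₁ * ρ := mul_pos hc₁ hρ
  have hyb := hstep x' (c₁ / 2 * ρ) (by linarith) hx'
  have hxb := hstep x (c₁ / 2 * ρ) (by linarith) hx
  have hkyb := hstep (it f k x') (c₁ / 2 * ρ + 2 * ε * ρ) (by linarith) hyb
  have hy1 : it f k x' ∈ ball w (c₁ * ρ) := ball_subset_ball (by linarith) hyb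
  have hx1 : it f k x ∈ ball w (c₁ * ρ) := ball_subset_ball (by linarith) hxb
  have hky1 : it f k (it f k x') ∈ ball w (c₁ * ρ) := ball_subset_ball (by linarith) hkyb
  -- the return
  have hm : it f (j - i) (it f k x') = it f k x := by
    have h1 : it f k x' = it f (k - j) (it f j x') := by
      rw [← hadd, Nat.sub_add_cancel hjk.le]
    have h2 : it f k x' = it f (k - j + i) x := by
      rw [h1, hxz', ← hxz, ← hadd]
    rw [h2, ← hadd]
    congr 1
    omega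
  by_cases hc : 2 * (j - i) ≤ k
  · refine key (j - i) (it f k x') (by omega) (by omega) hc hy1 ?_
    rw [hm]
    exact hx1
  · refine key (k - (j - i)) (it f k x) (by omega) (by omega) (by omega) hx1 ?_
    rw [← hm, ← hadd, Nat.sub_add_cancel (by omega)]
    exact hky1

end WPA
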