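import Pool.Agent.helper52.WP.SpecL

/-!
# Project wp: module `INJ`
-/

set_option autoImplicit false

open Complex Metric Set Filter Topology MeasureTheory
open V3S (UF)
open WP

noncomputable section

namespace WPL

/-- a map `x + v x`, `v` small on the larger ball, is injective on the smaller one. -/
theorem INJ_aux (F v : ℂ → ℂ) (ρ C : ℝ) (hv : Differentiable ℂ v)
    (hb : ∀ x ∈ ball (0 : ℂ) (ρ + 1), ‖v x‖ ≤ C) (hF : ∀ x, F x = x + v x) (hl : 2 * C < 1) :
    InjOn F (ball 0 ρ) := by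
  have hd : ∀ x ∈ ball (0 : ℂ) ρ, ‖deriv v x‖ ≤ 2 * C := by
    intro x hx
    have h := Complex.norm_deriv_le_of_forall_mem_sphere_norm_le (c := x) (R := 1 / 2) (C := C)
      (f := v) (by norm_num) hv.diffContOnCl (by
        intro z hz
        apply hb
        rw [mem_sphere, dist_eq_norm] at hz
        rw [mem_ball, dist_zero_right] at hx ⊢
        calc ‖z‖ = ‖(z - x) + x‖ := by rw [sub_add_cancel]
          _ ≤ ‖z - x‖ + ‖x‖ := norm_add_le _ _
          _ < ρ + 1 := by rw [hz]; linarith)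
    calc ‖deriv v x‖ ≤ C / (1 / 2) := h
      _ = 2 * C := by ring
  intro x hx y hy hxy
  have hL : ‖v y - v x‖ ≤ 2 * C * ‖y - x‖ :=
    (convex_ball (0 : ℂ) ρ).norm_image_sub_le_of_norm_deriv_le
      (fun z _ => hv.differentiableAt) hd hx hy
  rw [hF, hF] at hxy
  have h1 : y - x = -(v y - v x) := by linear_combination -hxy
  have h2 : ‖y - x‖ ≤ 2 * C * ‖y - x‖ := by
    calc ‖y - x‖ = ‖v y - v x‖ := by rw [h1, norm_neg]
      _ ≤ 2 * C * ‖y - x‖ := hL
  have h3 : ‖y - x‖ = 0 := by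
    by_contra hne
    have hpos : 0 < ‖y - x‖ := lt_of_le_of_ne (norm_nonneg _) (Ne.symm hne)
    have h4 : 2 * C * ‖y - x‖ < 1 * ‖y - x‖ := mul_lt_mul_of_pos_right hl hpos
    linarith
  exact (sub_eq_zero.mp (norm_eq_zero.mp h3)).symm

theorem INJ (hDSP : DSP_stmt) (hCB1 : WPC.CB1_stmt) : INJ_stmt := by
  intro n C D hC1 hS hLB hST ρ hρ
  obtain ⟨C', hC'0, hC'⟩ := hDSP n C D hC1 hS hLB hST (ρ + 1) (by linarith)
  obtain ⟨A, -, hgood⟩ := hS.good
  have hom : Tendsto (fun m => (D m).om) UF (𝓝 0) := hS.om.mono_left V3S.UF_le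
  have hde : Tendsto (fun m => 2 * (C' * (D m).om)) UF (𝓝 0) := by
    have := (hom.const_mul C').const_mul 2
    rwa [mul_zero, mul_zero] at this
  have hev : ∀ᶠ m in UF, 2 * (C' * (D m).om) < 1 := hde.eventually (gt_mem_nhds one_pos)
  filter_upwards [hC', hev] with m hm hm1
  obtain ⟨-, -, -, -, -, -, hdiff, -⟩ := hCB1 (D m) (hgood m).rho
  refine ⟨?_, ?_⟩
  · exact INJ_aux _ (fun x => (D m).F (D m).k x - x) ρ (C' * (D m).om)
      ((hdiff _).sub differentiable_id) hm (fun x => (add_sub_cancel x _).symm) hm1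
  · intro x hx
    have h1 : x ∈ ball (0 : ℂ) (ρ + 1) := ball_subset_ball (by linarith) hx
    have h2 := hm x h1
    linarith

end WPL
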