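import Pool.Agent.helper52.WP.SpecT

/-!
# Project wp: module `MPX`
-/

set_option autoImplicit false

open Complex Metric Set Filter Topology MeasureTheory
open V3S (UF)
open WP

noncomputable section

namespace WPT

theorem MPX (hLBX : ∀ (n : ℕ) (C : ℝ) (D : ℕ → Dat), 1 ≤ C → Seq n C D → LB D) (hSTW : STW_stmt)
    (hINJ : WPL.INJ_stmt) (hDSP : WPL.DSP_stmt) : MPX_stmt := by
  intro n C D hC hS ρ hρ ε hε
  have hLB := hLBX n C D hC hS
  have hST := hSTW n C D hC hS hLB
  obtain ⟨C', hC'0, hC'⟩ := hDSP n C D hC hS hLB hST ρ hρ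
  have hom : Tendsto (fun m => (D m).om) UF (𝓝 0) := hS.om.mono_left V3S.UF_le
  have hde : Tendsto (fun m => C' * (D m).om) UF (𝓝 0) := by
    have := hom.const_mul C'
    rwa [mul_zero] at this
  have hev : ∀ᶠ m in UF, C' * (D m).om < ε := hde.eventually (gt_mem_nhds hε)
  filter_upwards [hINJ n C D hC hS hLB hST ρ hρ, hC', hev] with m h1 h2 h3
  exact ⟨h1.1, fun x hx => (h2 x hx).trans h3.le⟩

end WPT
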